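import Pool.Agent.H933.LL.Stm6
import Pool.Agent.H955.LL.Fix

/-!
# One step with averages: the resolvent of a perturbation of finite rank (task LL, P_loc3)
-/

set_option autoImplicit false

open MeasureTheory Metric
open scoped Real ENNReal
open Pool.Agent.H933.LL
open Pool.Agent.H183.LL (Gm Gm_mul Gm_diff pert res_left res_right F_apply exists_inv inv_norm)
open Pool.Agent.H955.LL (fix_no_eig)

namespace Pool.Agent.H47.LL

/-! ### numerical part -/

theorem l3_logs {ρ : ℝ} (hρ : 1 ≤ ρ) : Real.posLog ρ = Real.log ρ :=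
  Real.posLog_eq_log (hρ.trans (le_abs_self ρ))

theorem l3_logn (n : ℕ) : Real.posLog (n : ℝ) ≤ n := by
  rw [Real.log_of_nat_eq_posLog]
  rcases Nat.eq_zero_or_pos n with h0 | h0
  · rw [h0]
    simp
  · have : (0 : ℝ) < n := by exact_mod_cast h0
    have := Real.log_le_sub_one_of_pos this
    linarith

theorem l3_log2 : Real.posLog 2 ≤ 1 := by
  have := Real.log_two_lt_d9
  rw [Real.posLog_eq_log (by norm_num)]
  linarith

theorem l3_log4 : Real.posLog 4 ≤ 2 := by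
  have h4 : (4 : ℝ) = 2 ^ 2 := by norm_num
  rw [h4, Real.posLog_pow]
  push_cast
  have := l3_log2
  linarith

theorem l3_log3 : Real.posLog 3 ≤ 2 :=
  (Real.posLog_le_posLog (by norm_num) (by norm_num : (3 : ℝ) ≤ 4)).trans l3_log4

theorem l3_M0 (n : ℕ) {ρ : ℝ} (hρ : 1 ≤ ρ) :
    Real.posLog ((n * (3 * ρ ^ 3)) ^ n) ≤ n * (n + (2 + 3 * Real.log ρ)) := by
  have hn0 : (0 : ℝ) ≤ n := Nat.cast_nonneg n
  rw [Real.posLog_pow]
  refine mul_le_mul_of_nonneg_left ?_ hn0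
  refine Real.posLog_mul.trans (add_le_add (l3_logn n) (Real.posLog_mul.trans
    (add_le_add l3_log3 ?_)))
  rw [Real.posLog_pow, l3_logs hρ]
  push_cast
  exact le_rfl

theorem l3_M1 (n : ℕ) {ρ r₀ a : ℝ} (hρ : 1 ≤ ρ) (ha : Real.posLog r₀ ≤ a) :
    Real.posLog ((n * (1 + ρ ^ 2 * r₀)) ^ n) ≤ n * (n + (1 + 2 * Real.log ρ + a)) := by
  have hn0 : (0 : ℝ) ≤ n := Nat.cast_nonneg n
  rw [Real.posLog_pow]
  refine mul_le_mul_of_nonneg_left ?_ hn0
  refine Real.posLog_mul.trans (add_le_add (l3_logn n) (Real.posLog_add.trans ?_))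
  have h1 : Real.posLog (ρ ^ 2 * r₀) ≤ Real.posLog (ρ ^ 2) + Real.posLog r₀ := Real.posLog_mul
  rw [Real.posLog_pow, l3_logs hρ] at h1
  push_cast at h1
  rw [Real.posLog_one]
  have hl2' : Real.log 2 ≤ 1 := by
    have := Real.log_two_lt_d9
    linarith
  linarith

theorem l3_num (n : ℕ) {ρ x y : ℝ} (hρ : 1 ≤ ρ) (hx : 0 ≤ x)
    (h : x ≤ 2 * ρ + n ^ 2 * (4 * ρ ^ 4) * ((n * (3 * ρ ^ 3)) ^ n * y)) :
    Real.posLog x ≤ (1 + (1 + Real.log ρ) + (2 * n + (2 + 4 * Real.log ρ)) +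
      n * (n + (2 + 3 * Real.log ρ))) + Real.posLog y := by
  have hlρ := l3_logs hρ
  have hl2' : Real.log 2 ≤ 1 := by
    have := Real.log_two_lt_d9
    linarith
  have hln := l3_logn n
  have e5 : Real.posLog (n ^ 2 * (4 * ρ ^ 4)) ≤ 2 * n + (2 + 4 * Real.log ρ) := by
    refine Real.posLog_mul.trans (add_le_add ?_ (Real.posLog_mul.trans (add_le_add l3_log4 ?_)))
    · rw [Real.posLog_pow]
      push_cast
      linarith
    · rw [Real.posLog_pow, hlρ]
      push_cast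
      linarith
  have e6 : Real.posLog (2 * ρ) ≤ 1 + Real.log ρ := by
    refine Real.posLog_mul.trans ?_
    rw [hlρ]
    have := l3_log2
    linarith
  have e7 : Real.posLog x ≤ 1 + (1 + Real.log ρ) + (2 * n + (2 + 4 * Real.log ρ) +
      (n * (n + (2 + 3 * Real.log ρ)) + Real.posLog y)) := by
    refine (Real.posLog_le_posLog hx h).trans (Real.posLog_add.trans ?_)
    refine add_le_add (add_le_add hl2' e6) ?_
    exact Real.posLog_mul.trans (add_le_add e5 (Real.posLog_mul.trans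
      (add_le_add (l3_M0 n hρ) le_rfl)))
  linarith

theorem l3_num2 (n : ℕ) {l a : ℝ} (hl : 0 ≤ l) (ha : 0 ≤ a) :
    ((1 + (1 + l) + (2 * n + (2 + 4 * l)) + n * (n + (2 + 3 * l))) +
      n * (n + (1 + 2 * l + a))) +
      (n * (n + (2 + 3 * l)) + n * (n + (1 + 2 * l + a))) ≤
        100 * (n + 1 : ℝ) ^ 2 * (1 + l) * (1 + a) := by
  have hn0 : (0 : ℝ) ≤ n := Nat.cast_nonneg n
  generalize (n : ℝ) = m at hn0 ⊢
  have p1 : 0 ≤ m * a := by positivity
  have p2 : 0 ≤ m * l := by positivity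
  have p3 : 0 ≤ m ^ 2 * a := by positivity
  have p4 : 0 ≤ m ^ 2 * l := by positivity
  have p5 : 0 ≤ m ^ 2 := by positivity
  have p6 : 0 ≤ l * a := by positivity
  have p7 : 0 ≤ m * (l * a) := by positivity
  have p8 : 0 ≤ m ^ 2 * (l * a) := by positivity
  have e8 : 100 * (m + 1) ^ 2 * (1 + l) * (1 + a) = 100 * (m ^ 2 + 2 * m + 1 + (m ^ 2 * l) +
      2 * (m * l) + l + (m ^ 2 * a) + 2 * (m * a) + a + (m ^ 2 * (l * a)) + 2 * (m * (l * a)) +
      l * a) := by ring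
  rw [e8]
  have e9 : ((1 + (1 + l) + (2 * m + (2 + 4 * l)) + m * (m + (2 + 3 * l))) +
      m * (m + (1 + 2 * l + a))) +
      (m * (m + (2 + 3 * l)) + m * (m + (1 + 2 * l + a))) =
        4 + 5 * l + 8 * m + 4 * m ^ 2 + 10 * (m * l) + 2 * (m * a) := by ring
  rw [e9]
  linarith

/-! ### the step -/

theorem p_loc3 (h1 : P_det) (h2 : P_neg) : P_loc3 := by
  intro X _ _ _ S K z₀ v R ρ a n φ f hR hρ hS hφ hK hv hvr hva
  obtain ⟨G₀, hG₀⟩ : ∃ G₀ : X →L[ℂ] X, G₀ = K - ∑ i, (φ i).smulRight (f i) := ⟨_, rfl⟩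
  rw [← hG₀] at hK
  have hT : ∀ x, (S + K) x = (S + G₀) x + ∑ i, φ i x • f i := by
    intro x
    rw [← F_apply, ← _root_.add_apply, hG₀]
    congr 1
    abel
  have hρ0 : 0 ≤ ρ := by linarith
  have hQ : ∀ w ∈ ball z₀ R, w ∈ resolventSet ℂ (S + G₀) ∧ ‖resolvent (S + G₀) w‖ ≤ 2 * ρ :=
    fun w hw => pert (hS w hw).1 (hS w hw).2 hK
  have hgg : (1 : ℝ) ≤ 3 * ρ ^ 3 := by
    have : 1 ≤ ρ ^ 3 := one_le_pow₀ hρ
    linarith
  have hent : ∀ w ∈ ball z₀ R, ∀ i j, ‖Gm (resolvent (S + G₀) w) φ f i j‖ ≤ 3 * ρ ^ 3 := by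
    intro w hw i j
    have h3 : ‖φ i (resolvent (S + G₀) w (f j))‖ ≤ ρ * ((2 * ρ) * ρ) :=
      ((φ i).le_opNorm _).trans (mul_le_mul (hφ i).1 (((resolvent (S + G₀) w).le_opNorm _).trans
        (mul_le_mul (hQ w hw).2 (hφ j).2 (norm_nonneg _) (by positivity))) (norm_nonneg _) hρ0)
    have h4 : ‖(if i = j then (1 : ℂ) else 0)‖ ≤ 1 := by
      split_ifs <;> simp
    have h5 : 1 ≤ ρ ^ 3 := one_le_pow₀ hρ
    unfold Gm
    rw [Matrix.of_apply]
    calc _ ≤ ‖(if i = j then (1 : ℂ) else 0)‖ + ‖φ i (resolvent (S + G₀) w (f j))‖ := norm_sub_le _ _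
      _ ≤ 1 + ρ * ((2 * ρ) * ρ) := add_le_add h4 h3
      _ ≤ ρ ^ 3 + 2 * ρ ^ 3 := by
          have : ρ * ((2 * ρ) * ρ) = 2 * ρ ^ 3 := by ring
          linarith
      _ = 3 * ρ ^ 3 := by ring
  obtain ⟨D, hD⟩ : ∃ D : ℂ → ℂ, D = fun w => (Gm (resolvent (S + G₀) w) φ f).det := ⟨_, rfl⟩
  have hDw : ∀ w, (Gm (resolvent (S + G₀) w) φ f).det = D w := fun w => by rw [hD]
  have hDdiff : DifferentiableOn ℂ D (ball z₀ R) := by
    rw [hD]
    exact Gm_diff fun w hw => (hQ w hw).1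
  obtain ⟨M₀, hM₀⟩ : ∃ M₀ : ℝ, M₀ = (n * (3 * ρ ^ 3)) ^ n := ⟨_, rfl⟩
  have hM : ∀ w ∈ ball z₀ R, ‖D w‖ ≤ M₀ := by
    intro w hw
    rw [← hDw, hM₀]
    exact (h1 n _ _ hgg (hent w hw)).1
  -- the determinant at `v`
  have hvb : v ∈ ball z₀ R := by
    rw [mem_ball, dist_eq_norm]
    linarith
  obtain ⟨W, hW⟩ : ∃ W : X →L[ℂ] X, W = resolvent (S + K) v := ⟨_, rfl⟩
  have hWeq : ∀ y, W y = resolvent (S + G₀) v y +
      resolvent (S + G₀) v (∑ k, φ k (W y) • f k) := by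
    intro y
    have h3 := res_right hvr y
    rw [← hW, hT] at h3
    have h4 := res_left (hQ v hvb).1 (W y)
    have h5 : v • W y - (S + G₀) (W y) = y + ∑ k, φ k (W y) • f k := by
      rw [← sub_sub, sub_eq_iff_eq_add] at h3
      exact h3
    rw [h5, map_add] at h4
    exact h4.symm
  have hGH := congrArg Matrix.det (Gm_mul hWeq)
  rw [Matrix.det_mul, Matrix.det_one, hDw] at hGH
  have hg' : 1 ≤ 1 + ρ ^ 2 * ‖W‖ := by
    have : 0 ≤ ρ ^ 2 * ‖W‖ := by positivity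
    linarith
  have hHent : ∀ i j, ‖(Matrix.of fun i j => (if i = j then (1 : ℂ) else 0) +
      φ i (W (f j)) : Matrix (Fin n) (Fin n) ℂ) i j‖ ≤ 1 + ρ ^ 2 * ‖W‖ := by
    intro i j
    have h3 : ‖φ i (W (f j))‖ ≤ ρ * (‖W‖ * ρ) :=
      ((φ i).le_opNorm _).trans (mul_le_mul (hφ i).1 ((W.le_opNorm _).trans
        (mul_le_mul_of_nonneg_left (hφ j).2 (norm_nonneg _))) (norm_nonneg _) hρ0)
    have h4 : ‖(if i = j then (1 : ℂ) else 0)‖ ≤ 1 := by
      split_ifs <;> simp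
    rw [Matrix.of_apply]
    calc _ ≤ ‖(if i = j then (1 : ℂ) else 0)‖ + ‖φ i (W (f j))‖ := norm_add_le _ _
      _ ≤ 1 + ρ * (‖W‖ * ρ) := add_le_add h4 h3
      _ = 1 + ρ ^ 2 * ‖W‖ := by ring
  have hdH := (h1 n _ _ hg' hHent).1
  obtain ⟨M₁, hM₁⟩ : ∃ M₁ : ℝ, M₁ = (n * (1 + ρ ^ 2 * ‖W‖)) ^ n := ⟨_, rfl⟩
  rw [← hM₁] at hdH
  have hnorm := congrArg norm hGH
  rw [norm_mul, norm_one] at hnorm
  have hDv : D v ≠ 0 := by
    intro h0
    rw [h0, norm_zero, zero_mul] at hnorm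
    exact zero_ne_one hnorm
  have hDvpos : 0 < ‖D v‖ := norm_pos_iff.2 hDv
  have hDvinv : ‖D v‖⁻¹ ≤ M₁ := by
    rw [inv_eq_of_mul_eq_one_right hnorm]
    exact hdH
  have hM0v : ‖D v‖ ≤ M₀ := hM v hvb
  have hM0pos : 0 < M₀ := hDvpos.trans_le hM0v
  have hM1pos : 0 < M₁ := (inv_pos.2 hDvpos).trans_le hDvinv
  have hM01 : 1 ≤ M₀ * M₁ := by
    calc (1 : ℝ) = ‖D v‖ * ‖D v‖⁻¹ := (mul_inv_cancel₀ hDvpos.ne').symm
      _ ≤ M₀ * M₁ := mul_le_mul hM0v hDvinv (inv_nonneg.2 hDvpos.le) hM0pos.le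
  -- the function on the disc with the centre `0`
  obtain ⟨r, hrdef⟩ : ∃ r : ℝ, r = 3 * R / 4 := ⟨_, rfl⟩
  have hr : 0 < r := by
    rw [hrdef]
    positivity
  have hsub : ∀ κ ∈ ball (0 : ℂ) (15 * R / 16), v + κ ∈ ball z₀ R := by
    intro κ hκ
    rw [mem_ball_zero_iff] at hκ
    rw [mem_ball, dist_eq_norm]
    have e1 : v + κ - z₀ = (v - z₀) + κ := by ring
    rw [e1]
    refine (norm_add_le _ _).trans_lt ?_
    linarith
  have hcb : closedBall (0 : ℂ) r ⊆ ball (0 : ℂ) (15 * R / 16) := by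
    apply closedBall_subset_ball
    rw [hrdef]
    linarith
  have hb' : ball (0 : ℂ) r ⊆ ball (0 : ℂ) (15 * R / 16) := ball_subset_closedBall.trans hcb
  have hfd : DifferentiableOn ℂ (fun κ => D (v + κ) / D v) (ball (0 : ℂ) (15 * R / 16)) := by
    have h3 : DifferentiableOn ℂ (fun κ : ℂ => v + κ) (ball (0 : ℂ) (15 * R / 16)) :=
      (differentiable_id.const_add v).differentiableOn
    exact (hDdiff.comp h3 hsub).div_const _
  have hf0 : (fun κ => D (v + κ) / D v) 0 = 1 := by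
    simp only [add_zero]
    exact div_self hDv
  have hfb : ∀ κ ∈ ball (0 : ℂ) r, ‖(fun κ => D (v + κ) / D v) κ‖ ≤ M₀ * M₁ := by
    intro κ hκ
    simp only [norm_div]
    rw [div_eq_mul_inv]
    exact mul_le_mul (hM _ (hsub κ (hb' hκ))) hDvinv (inv_nonneg.2 hDvpos.le) hM0pos.le
  obtain ⟨hint, hle, hvol⟩ := h2 (fun κ => D (v + κ) / D v) (ball (0 : ℂ) (15 * R / 16)) r
    (M₀ * M₁) isOpen_ball hr hcb hfd hf0 hM01 hfb
  have hvr' : ball v r ⊆ ball z₀ R := by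
    intro w hw
    have h3 : v + (w - v) ∈ ball z₀ R := by
      refine hsub _ (hb' ?_)
      rw [mem_ball_zero_iff, ← dist_eq_norm]
      exact hw
    rwa [add_sub_cancel] at h3
  have hzv : ball z₀ (11 * R / 16) ⊆ ball v r := by
    intro w hw
    rw [mem_ball, dist_eq_norm] at hw ⊢
    have e1 : w - v = (w - z₀) - (v - z₀) := by ring
    rw [e1]
    refine (norm_sub_le _ _).trans_lt ?_
    rw [hrdef]
    linarith
  obtain ⟨A, hA⟩ : ∃ A : ℝ, A = (1 + (1 + Real.log ρ) + (2 * n + (2 + 4 * Real.log ρ)) +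
      n * (n + (2 + 3 * Real.log ρ))) + n * (n + (1 + 2 * Real.log ρ + a)) := ⟨_, rfl⟩
  have ha0 : 0 ≤ a := Real.posLog_nonneg.trans hva
  have hla : 0 ≤ Real.log ρ := Real.log_nonneg hρ
  have hA0 : 0 ≤ A := by
    rw [hA]
    positivity
  rw [← hW] at hva
  have hpM1 : Real.posLog M₁ ≤ n * (n + (1 + 2 * Real.log ρ + a)) := by
    rw [hM₁]
    exact l3_M1 n hρ hva
  have hpM0 : Real.posLog M₀ ≤ n * (n + (2 + 3 * Real.log ρ)) := by
    rw [hM₀]
    exact l3_M0 n hρ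
  -- the good points
  have hgood : ∀ w ∈ ball z₀ R, D w ≠ 0 → w ∈ resolventSet ℂ (S + K) ∧
      Real.posLog ‖resolvent (S + K) w‖ ≤ A + Real.posLog ‖D w / D v‖⁻¹ := by
    intro w hw hd
    have hd' : (Gm (resolvent (S + G₀) w) φ f).det ≠ 0 := by
      rw [hDw]
      exact hd
    have he := fix_no_eig hT (res_left (hQ w hw).1) hd'
    obtain ⟨h3, h4⟩ := exists_inv hT (res_right (hQ w hw).1) he
    refine ⟨h3, ?_⟩
    have h5 := (h1 n _ _ hgg (hent w hw)).2 hd'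
    rw [hDw, ← hM₀] at h5
    have h6 : ‖resolvent (S + K) w‖ ≤ 2 * ρ + n ^ 2 * (4 * ρ ^ 4) * (M₀ * ‖D w‖⁻¹) := by
      rw [h4]
      refine inv_norm hρ (by positivity) (hQ w hw).2 hφ fun i j => ?_
      rw [← div_eq_mul_inv]
      exact h5 i j
    rw [hM₀] at h6
    have h7 := l3_num n hρ (norm_nonneg _) h6
    have h8 : Real.posLog ‖D w‖⁻¹ ≤ Real.posLog ‖D w / D v‖⁻¹ +
        n * (n + (1 + 2 * Real.log ρ + a)) := by
      have e1 : ‖D w‖⁻¹ = ‖D w / D v‖⁻¹ * ‖D v‖⁻¹ := by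
        rw [norm_div, inv_div, div_eq_mul_inv, mul_assoc, mul_comm ‖D w‖⁻¹, ← mul_assoc,
          mul_inv_cancel₀ hDvpos.ne', one_mul]
      rw [e1]
      refine Real.posLog_mul.trans (add_le_add le_rfl (le_trans ?_ hpM1))
      exact Real.posLog_le_posLog (inv_nonneg.2 hDvpos.le) hDvinv
    rw [hA]
    linarith
  -- the zeros are a null set
  have hnull : volume {w : ℂ | w ∈ ball v r ∧ D w = 0} = 0 := by
    rw [← measure_preimage_add volume v]
    refine measure_mono_null (fun κ hκ => ?_) hvol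
    simp only [Set.mem_preimage, Set.mem_ofPred_eq] at hκ ⊢
    refine ⟨?_, ?_⟩
    · rw [mem_ball_zero_iff]
      have h3 := hκ.1
      rw [mem_ball, dist_eq_norm, add_sub_cancel_left] at h3
      exact h3
    · rw [hκ.2, zero_div]
  have hae : ∀ᵐ w ∂(volume.restrict (ball v r)), w ∈ ball v r ∧ D w ≠ 0 := by
    rw [ae_restrict_iff' measurableSet_ball, ae_iff]
    refine measure_mono_null (fun κ hκ => ?_) hnull
    simp only [Set.mem_ofPred_eq, Classical.not_imp, not_and, not_not] at hκ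
    exact ⟨hκ.1, hκ.2 hκ.1⟩
  refine ⟨?_, ?_⟩
  · have h3 : ∀ᵐ w ∂(volume.restrict (ball v r)), w ∈ resolventSet ℂ (S + K) :=
      hae.mono fun w hw => (hgood w (hvr' hw.1) hw.2).1
    exact ae_restrict_of_ae_restrict_of_subset hzv h3
  have hvb2 : volume (ball v r) = ENNReal.ofReal (π * r ^ 2) := by
    rw [Complex.volume_ball, mul_comm π, ENNReal.ofReal_mul (by positivity),
      ENNReal.ofReal_pow hr.le]
    congr 1
    rw [ENNReal.ofReal_eq_coe_nnreal Real.pi_pos.le]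
    rfl
  have htr : ∫⁻ w in ball v r, ENNReal.ofReal (Real.posLog ‖D w / D v‖⁻¹) =
      ∫⁻ κ in ball (0 : ℂ) r, ENNReal.ofReal (Real.posLog ‖D (v + κ) / D v‖⁻¹) := by
    rw [← lintegral_indicator measurableSet_ball, ← lintegral_indicator measurableSet_ball,
      ← lintegral_add_left_eq_self _ v]
    refine lintegral_congr fun κ => ?_
    have e1 : (v + κ ∈ ball v r) ↔ (κ ∈ ball (0 : ℂ) r) := by
      rw [mem_ball, mem_ball_zero_iff, dist_eq_norm, add_sub_cancel_left]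
    by_cases h3 : κ ∈ ball (0 : ℂ) r
    · rw [Set.indicator_of_mem (e1.2 h3), Set.indicator_of_mem h3]
    · rw [Set.indicator_of_notMem (fun h4 => h3 (e1.1 h4)), Set.indicator_of_notMem h3]
  have hlogM : Real.log (M₀ * M₁) ≤ n * (n + (2 + 3 * Real.log ρ)) +
      n * (n + (1 + 2 * Real.log ρ + a)) := by
    have h3 : Real.log (M₀ * M₁) ≤ Real.posLog (M₀ * M₁) := le_max_right _ _
    exact h3.trans (Real.posLog_mul.trans (add_le_add hpM0 hpM1))
  calc ∫⁻ w in ball z₀ (11 * R / 16), ENNReal.ofReal (Real.posLog ‖resolvent (S + K) w‖)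
      ≤ ∫⁻ w in ball v r, ENNReal.ofReal (Real.posLog ‖resolvent (S + K) w‖) :=
        lintegral_mono_set hzv
    _ ≤ ∫⁻ w in ball v r, (ENNReal.ofReal A + ENNReal.ofReal (Real.posLog ‖D w / D v‖⁻¹)) := by
        refine lintegral_mono_ae (hae.mono fun w hw => ?_)
        rw [← ENNReal.ofReal_add hA0 Real.posLog_nonneg]
        exact ENNReal.ofReal_le_ofReal (hgood w (hvr' hw.1) hw.2).2
    _ = ENNReal.ofReal A * ENNReal.ofReal (π * r ^ 2) +
          ∫⁻ w in ball v r, ENNReal.ofReal (Real.posLog ‖D w / D v‖⁻¹) := by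
        rw [lintegral_add_left measurable_const, lintegral_const, Measure.restrict_apply_univ,
          hvb2]
    _ = ENNReal.ofReal A * ENNReal.ofReal (π * r ^ 2) +
          ENNReal.ofReal (∫ κ in ball (0 : ℂ) r, Real.posLog ‖D (v + κ) / D v‖⁻¹) := by
        rw [htr, ofReal_integral_eq_lintegral_ofReal hint
          (Filter.Eventually.of_forall fun κ => Real.posLog_nonneg)]
    _ ≤ ENNReal.ofReal A * ENNReal.ofReal (π * r ^ 2) +
          ENNReal.ofReal (π * r ^ 2 * Real.log (M₀ * M₁)) := by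
        gcongr
    _ = ENNReal.ofReal (A * (π * r ^ 2) + π * r ^ 2 * Real.log (M₀ * M₁)) := by
        rw [← ENNReal.ofReal_mul hA0, ← ENNReal.ofReal_add (by positivity)
          (mul_nonneg (by positivity) (Real.log_nonneg hM01))]
    _ ≤ _ := by
        refine ENNReal.ofReal_le_ofReal ?_
        have h4 := l3_num2 n hla ha0
        have h5 : 0 ≤ π * r ^ 2 := by positivity
        have h6 : π * r ^ 2 ≤ π * R ^ 2 := by
          refine mul_le_mul_of_nonneg_left ?_ Real.pi_pos.le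
          rw [hrdef]
          nlinarith [sq_nonneg R]
        have h7 : 0 ≤ 100 * (n + 1 : ℝ) ^ 2 * (1 + Real.log ρ) * (1 + a) := by positivity
        calc A * (π * r ^ 2) + π * r ^ 2 * Real.log (M₀ * M₁)
            = (π * r ^ 2) * (A + Real.log (M₀ * M₁)) := by ring
          _ ≤ (π * r ^ 2) * (100 * (n + 1 : ℝ) ^ 2 * (1 + Real.log ρ) * (1 + a)) := by
              refine mul_le_mul_of_nonneg_left (le_trans ?_ h4) h5
              rw [hA]
              linarith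
          _ ≤ (π * R ^ 2) * (100 * (n + 1 : ℝ) ^ 2 * (1 + Real.log ρ) * (1 + a)) :=
              mul_le_mul_of_nonneg_right h6 h7
          _ = _ := by ring

end Pool.Agent.H47.LL
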